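import Mathlib
import Pool.Agent.Run7.h8.IC.Gal

/-!
# The variational Hodge conjecture for the powers of abelian schemes of which one reduction has a
Frobenius element in CM fields with isolated cycles of automorphisms

We consider abelian schemes over a base `S` such that the fibre `A` at a very general point `s₀`
has a Frobenius element as follows. This fibre is an abelian variety over a finitely generated
subfield of the complex numbers, of any dimension and with arbitrary endomorphisms; we assume
that it has good reduction at ONE place `v` of this field, with a residue field of `p ^ a`
elements, such that the characteristic polynomial of the Frobenius element at `v` is the product
of the minimal polynomials of Weil numbers `π i` (`HasFrobenius`) as follows. For instance the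
abelian scheme can be defined over the ring of integers of a number field with some primes
inverted, and `v` a closed point of this scheme: so it is enough that ONE of all reductions of
the fibres has such a Frobenius element.

The Weil numbers. Let `π i` be Weil numbers for `q = p ^ a` (algebraic integers with `π i * conj
(π i) = q`) in CM fields `K i`, finitely many. For a CM subfield `T` of `K i` let `unitNorm` be
the norm `N` of `π i` to `T`, normalised to absolute value one: `N ^ 2 / p ^ (a [K i : T])`. The
slopes of the `π i` are arbitrary. There are two assumptions.

* (`Separated`) Different embeddings of CM subfields `T i`, `T i'` of the fields (equal subfields
  if `i = i'`) never map positive powers of these numbers to the same complex number. For one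
  Weil number `π` in `K` this is equivalent to `NormsGenerate`: for all CM subfields `T` of `K`,
  all positive powers of the normalised norm to `T` generate the field `T`. This condition is
  necessary: exotic classes (for instance of Weil type) come from norms some powers of which lie
  in smaller fields.
* (`Cyclic`) For every family of CM subfields `T i` of the `K i`, `i ∈ S ≠ ∅`, some automorphism
  `τ` of `ℂ` has an *isolated cycle* on the complex embeddings of the `T i` (`IsolatedCycle`):
  for one embedding `ψ` the cycle of `ψ` under `τ` has `n > 1` elements, where `n` is any power
  of any prime number (or `n = 2 ^ a r ^ b`, `a > 0`, `r` an odd prime number, and the cycle is
  stable under complex conjugation), and `n` does not divide the length of any other cycle,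
  except for that of the complex conjugate of `ψ`. By the theorem of Chebotarev this is a
  condition on the decomposition of prime numbers: some prime number, unramified in the `T i`,
  has exactly one prime ideal, or one pair of complex conjugate prime ideals, in the fields `T i`
  whose residue degree is divisible by `n`, and this residue degree is `n`. Alternatively the
  family may have one of the properties of the starting files: some prime number divides one of
  the discriminants of the `T i`, but its third power does not divide their product; or some
  automorphism of `ℂ` moves at least one and at most four embeddings; and for norms with only two
  slopes `third power` and `four` may be replaced by `fourth power` and `six`.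

An example (second part of the theorem, `HoldsForPrimePower`), in which the condition on the CM
subfields is not a hypothesis any more: `K` is **any** CM field of degree `2 r ^ k`, `r` a prime
number, such that some automorphism of `ℂ` acts on the pairs of complex conjugate embeddings of
`K` as one cycle (`OneOrbit`; for instance some prime number is inert in the maximal real
subfield of `K`, or is totally ramified there and does not divide the degree). `K` may have many
CM subfields. Then the conclusion is true for every Weil number `π` in `K` with `NormsGenerate`,
and arbitrary slopes. So for abelian varieties of prime power dimension with such a Frobenius
element exotic classes can only be explained by norms to CM subfields. (For `k = 1`, prime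
dimension, an automorphism as in `OneOrbit` always exists, and the result is similar to theorems
of Tankeev and Zarhin.)

The conclusion (`Variational`). **If a global section of the local system `(H^1)^{⊗ 2 m}(m)` (of
which the cohomology of the fibre powers, and of all families dominated by them, is a direct
summand) is a Hodge class on one fibre, for instance the class of an algebraic cycle, then on
every fibre `A_s` it is a linear combination of products of Hodge classes of degree two of
`A_s`**, and so it is the class of an algebraic cycle by the theorem of Lefschetz. In the formal
statement (`FamiliesFor`, `IsFamily`) the groups `H_1(A_s, ℚ)` are identified with `W` by
parallel transport, and included in the tangent spaces `T s` by `per s`; it is used that a global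
section which is a Hodge class on one fibre is a Hodge class on all fibres (Deligne), and that
Hodge classes of degree two of the very general fibre are Hodge classes on all fibres. The data
(`GaloisData`) are, for one prime number `ℓ`, the rational Tate module of the fibre at `s₀` with
the comparison with `H_1`, the Galois action, the Weil pairing, and the theorems of Faltings and
of Deligne. That the maximality of the angle rank for one Frobenius element implies that the
Hodge classes are generated in degree two is a theorem of the starting files (TH170.FT).

The starting files (MP_021685_ag OneFrobenius, MP_0fca13_ag TateRingOfPowers) have the criterion
for families of CM subfields with the alternative properties in `Cyclic`, and with automorphisms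
which act on the pairs of conjugate embeddings as one cycle of odd *prime* length and *fix all
other embeddings*. New is that the length can be any prime power, including powers of two, or `2
^ a r ^ b`, and that the other embeddings can move, as long as the lengths of their cycles are
not divisible by `n`; so the second part of the theorem is new for all `k > 1`. The reduction to
the slopes and the descent to the CM subfields are those of the starting files
(`Pool.Agent.W527`).

The proof. A multiplicative relation between the conjugates of the `π i` gives an odd function
`c` on the embeddings of a family of CM subfields, as small as possible, such that `∑ c (z) w (g
z) = 0` for all automorphisms `g`, where `w` is the function given by the slopes of the norms. We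
apply this to `g τ ^ j`, multiply by `ζ ^ (-j)`, where `ζ` is a primitive `n`-th root of unity,
and sum over `j`. The cycles whose length is not divisible by `n` do not contribute. So for all
automorphisms `h`, `g` the product of `∑ c (h τ ^ i ψ) ζ ^ i` and of `∑ w (g τ ^ j ψ) ζ ^ (-j)`
is zero. If the first sum is zero for all `h`, then the irreducibility of the cyclotomic
polynomial gives `c (h ψ) = c (h τ ^ (n / r) ψ)` for all `h`, so that `c` comes from smaller CM
subfields, a contradiction. If not, then in the same way `w (g ψ) = w (g τ ^ (n / r) ψ)` for all
`g`, which contradicts `Separated`. So the angle rank is maximal: the only multiplicative
relations are those given by `π i * conj (π i) = q`.
-/

set_option autoImplicit false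

namespace Pool.Agent.Results.MP_e9c0f3_ag.IsolatedCycles

open Run7.h8.IC

/-- **The variational Hodge conjecture for powers of abelian schemes of which one reduction has
a Frobenius element in CM fields with isolated cycles.** -/
theorem result :
    HoldsForCyclic (fun p _ a _ _ K _ _ _ π =>
      FamiliesFor p a K π fun _ _ _ _ _ _ _ per G => Variational per G) ∧
    HoldsForPrimePower (fun p _ a _ _ K _ _ _ π =>
      FamiliesFor p a K π fun _ _ _ _ _ _ _ per G => Variational per G) :=
  ⟨holdsForCyclic variationalFor, primePower_of_cyclic (holdsForCyclic variationalFor)⟩

end Pool.Agent.Results.MP_e9c0f3_ag.IsolatedCycles
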